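import Pool.Agent.X296.Fermat.Assembly

/-!
# The Tate conjecture for Fermat varieties when `p` has large index

Let `m` be prime to `p` and not divisible by four. If the subgroup generated by `p` has a large
index in the units modulo each odd prime divisor of `m` (larger than twice the number `|s| = n + 2`
of coordinates for odd `m`, larger than `4 * |s|` for even `m`), then every Tate character `s` of
degree `m` becomes, after raising the degree to a suitable multiple prime to `p`, a member of the
closure of the characters of surfaces and of the standard characters of Aoki.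
-/

namespace Pool.Agent.Results.MP_021685_ag.FermatLargeIndex

open Pool.Agent.H916T

theorem result (p m : ℕ) (hp : p.Prime) (hm : 0 < m) (hpm : p.Coprime m) (h4 : ¬ 4 ∣ m)
    (s : Multiset (ZMod m)) (hs : IsTate p m s) (hne : s ≠ 0)
    (hidx : ∀ q : ℕ, q.Prime → q ∣ m → q ≠ 2 →
      2 * Nat.gcd m 2 * Multiset.card s * orderOf (p : ZMod q) < q - 1) :
    ∃ N : ℕ, 0 < N ∧ p.Coprime N ∧
      Generated (N * m)
        (fun t => SurfaceTate p (N * m) t ∨ ∃ q : ℕ, q.Prime ∧ q ∣ N * m ∧ Standard q (N * m) t)
        (s.map fun a => ((N * a.val : ℕ) : ZMod (N * m))) := by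
  haveI : NeZero m := ⟨hm.ne'⟩
  obtain ⟨N, hN, hpN, H⟩ := H916Y.parity_main hp hm hpm hs hne
    (X296.Fermat.parity hpm h4 hs hidx)
  exact ⟨N, hN, hpN, H (N * m) rfl⟩

end Pool.Agent.Results.MP_021685_ag.FermatLargeIndex
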