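import Pool.Agent.X296.Prod.Main

/-!
# The Tate conjecture over a fixed finite field for all products of the members of a large family

Over the field with `q = p ^ a` elements there are sets `S g` of isogeny classes of absolutely simple
ordinary abelian varieties of dimension `g`, with at least `q ^ (g ^ 2 / 4 - C g log g)` elements for
all large `g`, such that the Tate conjecture holds for every abelian variety isogenous to a product
of powers of members of these sets (of any dimensions) and of a supersingular abelian variety: every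
Tate class is a combination of products of classes of divisors. The CM fields generated by the
Frobenius endomorphisms of different members are not isomorphic.
-/

namespace Pool.Agent.Results.MP_021685_ag.FixedFieldProducts

open Polynomial IntermediateField Pool.Agent.W518.TC Pool.Agent.W518.DN

theorem result (p : ℕ) [Fact p.Prime] (a : ℕ) (ha : 1 ≤ a) :
    ∃ (C : ℝ) (g0 : ℕ) (S : ℕ → Finset ℤ[X]),
      (∀ g, ∀ P ∈ S g, IsFrobPoly p a P ∧ P.natDegree = 2 * g ∧ Irreducible P ∧
        ¬ (p : ℤ) ∣ P.coeff g ∧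
        ∀ n : ℕ, 0 < n → ∀ z w : ℂ, (P.map (Int.castRingHom ℂ)).IsRoot z →
          (P.map (Int.castRingHom ℂ)).IsRoot w → z ^ n = w ^ n → z = w) ∧
      (∀ g ≥ g0, ((p : ℝ) ^ a) ^ ((g : ℝ) ^ 2 / 4 - C * (g * Real.log g)) ≤ (S g).card) ∧
      (∀ g g', ∀ P ∈ S g, ∀ P' ∈ S g', P ≠ P' →
        ∀ z w : ℂ, (P.map (Int.castRingHom ℂ)).IsRoot z →
          (P'.map (Int.castRingHom ℂ)).IsRoot w → ℚ⟮z⟯ ≠ ℚ⟮w⟯) ∧
      ∀ (κ : Type) [Fintype κ] (P : κ → ℤ[X]), Function.Injective P →
        (∀ i, ∃ g, P i ∈ S g) → TateGenerated p a P := by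
  obtain ⟨C, g0, S, h1, h2, h3, h4⟩ := X296.Prod.main p a ha
  exact ⟨C, g0, S, fun g P hP => ⟨(h1 g P hP).frob, (h1 g P hP).deg, (h1 g P hP).irr,
    (h1 g P hP).ord, (h1 g P hP).abs⟩, h2,
    fun g g' P hP P' hP' hne z w hz hw hzw => h3 g g' P hP P' hP' hne ⟨z, w, hz, hw, hzw⟩, h4⟩

end Pool.Agent.Results.MP_021685_ag.FixedFieldProducts
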