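import Mathlib
import Pool.Agent.TH115.GD.Defs
import Pool.Agent.TH115.ID.Defs
import Pool.Agent.X243.Tate.Ev5

/-!
# The Tate conjecture at 2 for 100% of the elliptic surfaces with full level two structure: even degree

Let `k` be a number field, `k'` an algebraic closure, `K = k(t)`, `F = k'(t)`. Every elliptic surface over
the projective line over `k` with all its points of order two rational has the generic fibre

`E : y² = x (x - a) (x - b)`

with polynomials `a`, `b` over `k`; it has geometric genus at most `n - 1` if and only if one can take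
`deg a ≤ 2 n`, `deg b ≤ 2 n`. So with `N = 2 n` the polynomials `a`, `b` of degree at most `N` parametrize all
elliptic surfaces with full level two structure and `p_g ≤ n - 1`; in general the singular
fibres are `3 N` fibres of type `I₂`, and `p_g = n - 1 = N / 2 - 1`.

Theorem. (1) (A criterion.) Let `k` be a field of characteristic different from 2 (for example finitely
generated over its prime field), and let `a`, `b`, `a - b` be irreducible and separable over `k`, `a` and `b`
coprime and not a constant times a norm of a polynomial over a quadratic extension of `k`. If no constant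
multiple of `b` is a square modulo `a`, then for EVERY constant `d ≠ 0` of `k` the Tate conjecture for
divisors at the prime 2 holds for the quadratic twist `E_d : y² = x (x - d a) (x - d b)`: all the
classes in `V₂ Sel(E_d / F)` which are fixed by the Galois group of `k` come from `E_d(K)`; moreover there is
no nonzero class of this kind.

(2) (Ordering by height.) Let `k` be a number field and `N ≥ 4` even. For 100% of the pairs `(a, b)` of
integral polynomials of degree at most `N` the polynomials `a`, `b` and `a - b` are irreducible over `k`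
of degree `N`, `a` and `b` are coprime, and the conclusion of (1) holds for every constant `d ≠ 0` of `k`.
That is, the proportion of these pairs among the pairs with all coefficients in `[-B, B]` tends to `1` as `B`
tends to infinity.

(3) (Congruences.) Let `k₀` be a subfield of `k`. For every `η > 0` there is an ideal `M ≠ 0` of the ring of
integers `O` of `k₀` and a set of residue classes modulo `M` of pairs `(a, b)`, with proportion at
least `1 - η` among all residue classes, such that EVERY pair over `O` in one of these residue classes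
has these properties over `k`.

`TateAtTwo` is the statement about the Galois-invariant classes in the 2-adic Selmer group; as
`Br(X ⊗ k') = Ш(E / F)` (Grothendieck), it is the statement of Q1 for `j = 1`, `ℓ = 2` and `X`.

The second 2-descent of the earlier library needs a place of odd degree (at infinity, or a factor of
odd degree of two of the polynomials), to show that the conjugates of the reduction modulo 2 of a Tate
class do not differ by the classes of the points of order two. Here there is no such place; the function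
which describes how the residues at the zeros of `a` change would define a decomposition of `a` into
two conjugate factors over a quadratic extension. The rest of the second descent is then the same: the
lift modulo 4 gives constants `r`, `s` such that `r s b` or `-r s b` etc. is a square modulo `a`. For (2) and (3):
`a` and `b` are not norms if they have a factor of the odd degree `N - 1` modulo a prime; no constant
multiple of `b` is a square modulo `a` if for `a = (t - c) π` modulo a prime the residues of `b` modulo `t - c`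
and modulo `π` have different quadratic characters. Each condition holds for at least `1 / (16 N)` of all the
pairs modulo each large prime, and a sieve.
-/

namespace Pool.Agent.Results.MP_021685_ag.FullLevelEvenDegree

open Polynomial Pool.Agent.TH115.GD NumberField
open Pool.Agent.X243.Tate (Zset Fe box)
open scoped Classical

/-- The polynomial over `k` with the coefficients `c`. -/
noncomputable def poly {R : Type} [CommRing R] (k : Type) [Field k] [Algebra R k] {r : ℕ}
    (c : Fin r → R) : k[X] :=
  ∑ j : Fin r, C (algebraMap R k (c j)) * X ^ (j : ℕ)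

/-- For every constant `d ≠ 0` the Tate conjecture at 2 holds for the curve `y² = x (x - d a) (x - d b)`
over `K = k(t)`; moreover the Galois-invariant classes in `V₂ Sel(E_d / F)` are generated by no element. -/
def AllTwists (k k' K F : Type) [Field k] [Field k'] [Algebra k k'] [Field K] [Algebra k[X] K]
    [Field F] [Algebra k'[X] F] [IsFractionRing k'[X] F] [Algebra K F] (a b : k[X]) : Prop :=
  ∀ d : k, d ≠ 0 →
    TateAtTwo (F := F) k' (crv (algebraMap k[X] K (C d * a)) (algebraMap k[X] K (C d * b))) ∧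
    GeneratedBy (F := F) k' (crv (algebraMap k[X] K (C d * a)) (algebraMap k[X] K (C d * b))) 0

/-- `a`, `b` and `a - b` are irreducible over `k` of degree `N`, `a` and `b` are coprime, and the Tate
conjecture at 2 holds for all the twists. -/
structure Good (k k' K F : Type) [Field k] [Field k'] [Algebra k k'] [Field K] [Algebra k[X] K]
    [Field F] [Algebra k'[X] F] [IsFractionRing k'[X] F] [Algebra K F] (N : ℕ) (a b : k[X]) :
    Prop where
  irrA : Irreducible a ∧ a.natDegree = N
  irrB : Irreducible b ∧ b.natDegree = N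
  irrC : Irreducible (a - b) ∧ (a - b).natDegree = N
  cop : IsCoprime a b
  tate : AllTwists k k' K F a b

theorem good_of {A k k' K F : Type} [Field A] [NumberField A] [Field k] [NumberField k]
    [Algebra A k] [Field k'] [Algebra k k'] [Field K] [Algebra k[X] K]
    [Field F] [Algebra k'[X] F] [IsFractionRing k'[X] F] [Algebra K F] (hT : IsTower k k' K F)
    {N B : ℕ} (hN : 3 ≤ N) {y : Fin (N + 1) ⊕ Fin (N + 1) → 𝓞 A}
    (h : ∀ s : Fin 6, ∃ p ∈ Zset A k B,
      (fun j => Ideal.Quotient.mk p.asIdeal (y j)) ∈ Fe N s (𝓞 A ⧸ p.asIdeal)) :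
    Good k k' K F N (poly k (y ∘ Sum.inl)) (poly k (y ∘ Sum.inr)) := by
  obtain ⟨h1, h2, h3, h4, h5⟩ := Pool.Agent.X243.Tate.tate_all hT hN h
    (poly k (y ∘ Sum.inl)) (poly k (y ∘ Sum.inr))
    (Pool.Agent.X243.Tate.bF_map (algebraMap (𝓞 A) k) (y ∘ Sum.inl)).symm
    (Pool.Agent.X243.Tate.bF_map (algebraMap (𝓞 A) k) (y ∘ Sum.inr)).symm
  exact ⟨h1, h2, h3, h4, h5⟩

theorem result :
    (∀ (k k' K F : Type) [Field k] [Field k'] [Algebra k k'] [Field K] [Algebra k[X] K] [Field F]
      [Algebra k'[X] F] [IsFractionRing k'[X] F] [Algebra K F], IsTower k k' K F → (2 : k) ≠ 0 →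
      ∀ a b : k[X], Irreducible a → Irreducible b → Irreducible (a - b) → a.Separable →
        b.Separable → (a - b).Separable → IsCoprime a b → NotNorm a → NotNorm b →
        (∀ δ : k, δ ≠ 0 → ∀ z : k[X], ¬ a ∣ z ^ 2 - C δ * b) → AllTwists k k' K F a b) ∧
    (∀ (k k' K F : Type) [Field k] [NumberField k] [Field k'] [Algebra k k'] [Field K]
      [Algebra k[X] K] [Field F] [Algebra k'[X] F] [IsFractionRing k'[X] F] [Algebra K F],
      IsTower k k' K F → ∀ N : ℕ, 4 ≤ N → Even N →
        Filter.Tendsto (fun B : ℕ =>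
          (({z : (Fin (N + 1) → ℤ) × (Fin (N + 1) → ℤ) |
            (∀ j, |z.1 j| ≤ B) ∧ (∀ j, |z.2 j| ≤ B) ∧
              Good k k' K F N (poly k z.1) (poly k z.2)}.ncard : ℕ) : ℝ) /
          (({z : (Fin (N + 1) → ℤ) × (Fin (N + 1) → ℤ) |
            (∀ j, |z.1 j| ≤ B) ∧ (∀ j, |z.2 j| ≤ B)}.ncard : ℕ) : ℝ)) Filter.atTop (nhds 1)) ∧
    (∀ (k₀ k k' K F : Type) [Field k₀] [NumberField k₀] [Field k] [NumberField k] [Algebra k₀ k]
      [Field k'] [Algebra k k'] [Field K] [Algebra k[X] K] [Field F] [Algebra k'[X] F]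
      [IsFractionRing k'[X] F] [Algebra K F],
      IsTower k k' K F → ∀ N : ℕ, 4 ≤ N → Even N → ∀ η : ℝ, 0 < η →
        ∃ M : Ideal (𝓞 k₀), M ≠ ⊥ ∧
          (1 - η) * (Nat.card ((Fin (N + 1) → 𝓞 k₀ ⧸ M) × (Fin (N + 1) → 𝓞 k₀ ⧸ M)) : ℝ) ≤
          (({z : (Fin (N + 1) → 𝓞 k₀ ⧸ M) × (Fin (N + 1) → 𝓞 k₀ ⧸ M) |
            ∀ (α : Fin (N + 1) → 𝓞 k₀) (β : Fin (N + 1) → 𝓞 k₀),
              (∀ j, Ideal.Quotient.mk M (α j) = z.1 j) →
              (∀ j, Ideal.Quotient.mk M (β j) = z.2 j) →
                Good k k' K F N (poly k α) (poly k β)}.ncard : ℕ) : ℝ)) := by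
  refine ⟨?_, ?_, ?_⟩
  · intro k k' K F _ _ _ _ _ _ _ _ _ hT h2 a b ha hb hc sa sb sc hco na nb hs d hd
    exact Pool.Agent.X243.FL.full_twist hT h2 ha hb hc sa sb sc hco na nb hs hd
  · intro k k' K F _ _ _ _ _ _ _ _ _ _ hT N hN4 hev
    have hN : 3 ≤ N := by omega
    have key := Pool.Agent.X243.Tate.box_dens (ι := Fin (N + 1) ⊕ Fin (N + 1))
      {y | Good k k' K F N (poly k (y ∘ Sum.inl)) (poly k (y ∘ Sum.inr))} (by
        intro η hη
        obtain ⟨M, hM, hd⟩ := Pool.Agent.X243.Tate.dens_six ℚ k hN η hη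
        have hfin : Finite (𝓞 ℚ ⧸ M) := Ideal.finiteQuotientOfFreeOfNeBot _ hM
        obtain ⟨T, hTdef⟩ : ∃ T : Set (Fin (N + 1) ⊕ Fin (N + 1) → 𝓞 ℚ ⧸ M),
            T = {x : Fin (N + 1) ⊕ Fin (N + 1) → 𝓞 ℚ ⧸ M | ∀ s : Fin 6,
              ∃ p ∈ Zset ℚ k (2 * N + 2),
              ∀ y : Fin (N + 1) ⊕ Fin (N + 1) → 𝓞 ℚ,
                (∀ j, Ideal.Quotient.mk M (y j) = x j) →
                (fun j => Ideal.Quotient.mk p.asIdeal (y j)) ∈
                  Fe N s (𝓞 ℚ ⧸ p.asIdeal)} := ⟨_, rfl⟩
        rw [← hTdef] at hd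
        refine ⟨𝓞 ℚ ⧸ M, inferInstance, hfin, ?_, Tᶜ, ?_, ?_⟩
        rotate_left 1
        · have h1 := Set.ncard_add_ncard_compl T
          rw [Nat.card_fun, Nat.card_eq_fintype_card (α := Fin (N + 1) ⊕ Fin (N + 1))] at h1
          have h2 := congrArg (Nat.cast (R := ℝ)) h1
          rw [Nat.cast_add, Nat.cast_pow] at h2
          linarith
        · intro y hy hgood
          apply hy
          rw [hTdef] at hgood
          have e1 : ∀ t : ℤ, algebraMap (𝓞 ℚ) k (t : 𝓞 ℚ) = algebraMap ℤ k t := by
            intro t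
            rw [map_intCast, eq_intCast]
          have h3 := good_of (A := ℚ) (k := k) hT hN (y := fun j => ((y j : ℤ) : 𝓞 ℚ))
            (B := 2 * N + 2) (fun s => by
              obtain ⟨p, hp, hp'⟩ := hgood s
              exact ⟨p, hp, hp' _ (fun j => map_intCast _ _)⟩)
          have e2 : (poly k ((fun j => ((y j : ℤ) : 𝓞 ℚ)) ∘ Sum.inl) : k[X]) =
              poly k (y ∘ (Sum.inl : Fin (N + 1) → Fin (N + 1) ⊕ Fin (N + 1))) := by
            refine Finset.sum_congr rfl fun j _ => ?_
            rw [Function.comp, Function.comp, e1]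
          have e3 : (poly k ((fun j => ((y j : ℤ) : 𝓞 ℚ)) ∘ Sum.inr) : k[X]) =
              poly k (y ∘ (Sum.inr : Fin (N + 1) → Fin (N + 1) ⊕ Fin (N + 1))) := by
            refine Finset.sum_congr rfl fun j _ => ?_
            rw [Function.comp, Function.comp, e1]
          rw [e2, e3] at h3
          exact h3
        · intro z
          obtain ⟨x, rfl⟩ := Ideal.Quotient.mk_surjective z
          refine ⟨Rat.ringOfIntegersEquiv x, ?_⟩
          have h4 : ((Rat.ringOfIntegersEquiv x : ℤ) : 𝓞 ℚ) = x := by
            apply Rat.ringOfIntegersEquiv.injective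
            rw [map_intCast, Int.cast_id]
          rw [eq_intCast, ← map_intCast (Ideal.Quotient.mk M), h4])
    have hE : Function.Injective (fun z : (Fin (N + 1) → ℤ) × (Fin (N + 1) → ℤ) =>
        Sum.elim z.1 z.2) := by
      rintro ⟨a, b⟩ ⟨a', b'⟩ h
      exact Prod.ext (funext fun j => congrFun h (Sum.inl j)) (funext fun j => congrFun h (Sum.inr j))
    have hsplit : ∀ B : ℕ, ∀ z : (Fin (N + 1) → ℤ) × (Fin (N + 1) → ℤ),
        Sum.elim z.1 z.2 ∈ box (Fin (N + 1) ⊕ Fin (N + 1)) B ↔
          (∀ j, |z.1 j| ≤ B) ∧ (∀ j, |z.2 j| ≤ B) := by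
      intro B z
      constructor
      · intro h
        exact ⟨fun j => h (Sum.inl j), fun j => h (Sum.inr j)⟩
      · rintro ⟨h1, h2⟩ (j | j)
        · exact h1 j
        · exact h2 j
    have hsurj : ∀ y : Fin (N + 1) ⊕ Fin (N + 1) → ℤ, ∃ z : (Fin (N + 1) → ℤ) × (Fin (N + 1) → ℤ),
        Sum.elim z.1 z.2 = y := fun y => ⟨(y ∘ Sum.inl, y ∘ Sum.inr), Sum.elim_comp_inl_inr y⟩
    refine key.congr fun B => ?_
    congr 2
    · rw [← Set.ncard_image_of_injective _ hE]
      congr 1
      ext y
      constructor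
      · rintro ⟨h1, h2⟩
        obtain ⟨z, rfl⟩ := hsurj y
        exact ⟨z, ⟨((hsplit B z).1 h1).1, ((hsplit B z).1 h1).2, h2⟩, rfl⟩
      · rintro ⟨z, ⟨h1, h2, h3⟩, rfl⟩
        exact ⟨(hsplit B z).2 ⟨h1, h2⟩, h3⟩
    · rw [← Set.ncard_image_of_injective _ hE]
      congr 1
      ext y
      constructor
      · intro h1
        obtain ⟨z, rfl⟩ := hsurj y
        exact ⟨z, (hsplit B z).1 h1, rfl⟩
      · rintro ⟨z, h1, rfl⟩
        exact (hsplit B z).2 h1
  · intro k₀ k k' K F _ _ _ _ _ _ _ _ _ _ _ _ _ hT N hN4 hev η hη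
    have hN : 3 ≤ N := by omega
    obtain ⟨M, hM, hd⟩ := Pool.Agent.X243.Tate.dens_six k₀ k hN η hη
    have hfin : Finite (𝓞 k₀ ⧸ M) := Ideal.finiteQuotientOfFreeOfNeBot _ hM
    refine ⟨M, hM, ?_⟩
    have hE : Function.Injective (fun z : (Fin (N + 1) → 𝓞 k₀ ⧸ M) × (Fin (N + 1) → 𝓞 k₀ ⧸ M) =>
        Sum.elim z.1 z.2) := by
      rintro ⟨a, b⟩ ⟨a', b'⟩ h
      exact Prod.ext (funext fun j => congrFun h (Sum.inl j)) (funext fun j => congrFun h (Sum.inr j))
    have hc : (Nat.card ((Fin (N + 1) → 𝓞 k₀ ⧸ M) × (Fin (N + 1) → 𝓞 k₀ ⧸ M)) : ℝ) =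
        (Nat.card (𝓞 k₀ ⧸ M) : ℝ) ^ (Fintype.card (Fin (N + 1) ⊕ Fin (N + 1))) := by
      rw [Nat.card_prod, Nat.card_fun, Fintype.card_sum, Fintype.card_fin, Nat.card_fin,
        pow_add _ (N + 1) (N + 1)]
      push_cast
      rfl
    rw [hc]
    refine hd.trans ?_
    have h1 := Set.ncard_image_of_injective {z : (Fin (N + 1) → 𝓞 k₀ ⧸ M) × (Fin (N + 1) → 𝓞 k₀ ⧸ M) |
            ∀ (α : Fin (N + 1) → 𝓞 k₀) (β : Fin (N + 1) → 𝓞 k₀),
              (∀ j, Ideal.Quotient.mk M (α j) = z.1 j) →
              (∀ j, Ideal.Quotient.mk M (β j) = z.2 j) →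
                Good k k' K F N (poly k α) (poly k β)} hE
    rw [← h1]
    have h2 : ∀ S T : Set (Fin (N + 1) ⊕ Fin (N + 1) → 𝓞 k₀ ⧸ M), S ⊆ T →
        ((S.ncard : ℕ) : ℝ) ≤ ((T.ncard : ℕ) : ℝ) := fun S T h => by
      exact_mod_cast Set.ncard_le_ncard h (Set.toFinite _)
    apply h2
    intro x hx
    refine ⟨(x ∘ Sum.inl, x ∘ Sum.inr), ?_, Sum.elim_comp_inl_inr x⟩
    intro α β hα hβ
    have h3 := good_of (A := k₀) (k := k) hT hN (y := Sum.elim α β) (B := 2 * N + 2) (fun s => by
      obtain ⟨p, hp, hp'⟩ := hx s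
      refine ⟨p, hp, hp' _ ?_⟩
      rintro (j | j)
      · exact hα j
      · exact hβ j)
    exact h3

end Pool.Agent.Results.MP_021685_ag.FullLevelEvenDegree
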