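import Pool.Agent.H313.CC.Tensor

/-!
# The Tate conjecture over finite fields for products with cyclic coverings

Let `k` be a field with `q` elements, `Z` the subset of projective space of dimension `M` over `k`
where the forms `G i` vanish, and assume that `Z` is smooth of pure dimension `2 r` and geometrically
connected. Let `ℓ` be a prime, `n` prime to `ℓ`, `N = n ℓ ^ a` with `a > 0` a divisor of `q - 1`, and
`F` a form whose degree is positive and divisible by `N` such that the subset `B` of `Z` where `F`
vanishes is a smooth divisor. For `v` in the unit group of `k` let `X_v : w ^ N = v ^ n F` be the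
cyclic covering of `Z` of degree `N` which is branched along `B`, a smooth projective variety. It is
also a covering of `X : w ^ n = F`, by `w' = w ^ (ℓ ^ a) / v`. It depends only on the class of `v`
modulo `ℓ ^ a`-th powers.

For a character `ψ ≠ 1` of `k` whose order divides `N` the cohomology with compact support of `Z - B`
with coefficients in the Kummer sheaf of `ψ` for `F` is concentrated in the degree `2 r`, since `Z - B`
is affine and the sheaf is ramified along `B`. So `charProduct G F ψ`, the inverse of the `L`-function
of the sheaf, is the polynomial `det (1 - T Frob)` (`hpoly`), and the cohomology of `X_v` is that of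
`Z` and, in degree `2 r` only, the sum of these groups for the powers `ψ = χ ^ j`, `0 < j < N`, of a
character `χ` of order `N`. So `IsCoverPolynomial` holds for `X_v` with
`P_v = det (1 - T Frob)` on `H ^ (2 r) (X_v) / H ^ (2 r) (Z)`, and for `X` with the corresponding
polynomial `P`. By Dwork the zeta functions of `B` and `Z` are rational functions, and their quotient
is `L₁ / L₂` with polynomials over the integers with constant coefficient one (`IsZetaQuotient`). For
`Z` the projective space of dimension `2 r`, `L₂ = 1` and `L₁ = (1 - q ^ (2 r) T) L` with the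
polynomial `L = det (1 - T Frob)` on `H ^ (2 r - 1) (B)`.

Let `Y` be any smooth projective variety over `k`, `i` an even number, and `R` the characteristic
polynomial of Frobenius on `H ^ i (Y)`, of which the zeros `b ∈ S` are in the ring of integers of
the number field `K`, a Galois extension of the rational numbers. For a polynomial `P` with constant
coefficient one and with the reciprocal zeros `α` let `W` be the polynomial with the reciprocal zeros
`α b`; this is `IsTensor S P W`. For the polynomial `P_v` it is the polynomial `W_v = det (1 - T Frob)` on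
`H ^ i (Y) ⊗ (H ^ (2 r) (X_v) / H ^ (2 r) (Z))`. These groups are direct summands of the cohomology of
degree `2 c = 2 r + i` of `Y × X_v`.
-/

set_option autoImplicit false
set_option linter.all false
set_option maxHeartbeats 4000000

open Polynomial NumberField

namespace Pool.Agent.Results.MP_021685_ag.ProductsWithCoverings

open Pool.Agent.TH639.SN (SpacePt normValue chart eulerProduct finite_le deg_pos chart_C_mul
  normValue_C_mul)

section defs

variable {k : Type} [Field k] {M s : ℕ}

/-- The closed points of the subset `Z` of projective space of dimension `M` over `k` where the forms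
`G i` vanish. The coordinate of index `index` is one, the following coordinates are zero, and the
preceding ones are the coordinates of the closed point `point` of affine space. -/
structure Pt (G : Fin s → MvPolynomial (Fin (M + 1)) k) : Type where
  index : Fin (M + 1)
  point : SpacePt index k
  vanish : ∀ i, normValue index k (chart index (G i)) point = 0

/-- The degree of a closed point. -/
noncomputable def Pt.degree {G : Fin s → MvPolynomial (Fin (M + 1)) k} (z : Pt G) : ℕ :=
  Pool.Agent.TH639.SN.deg z.index k z.point

/-- The norm to `k` of the value of the form `F` at a closed point. -/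
noncomputable def Pt.value {G : Fin s → MvPolynomial (Fin (M + 1)) k} (z : Pt G)
    (F : MvPolynomial (Fin (M + 1)) k) : k :=
  normValue z.index k (chart z.index F) z.point

variable (G : Fin s → MvPolynomial (Fin (M + 1)) k) (F : MvPolynomial (Fin (M + 1)) k)

/-- The inverse of the zeta function of `Z`. -/
noncomputable def zetaInv : PowerSeries ℤ :=
  eulerProduct (fun z : Pt G => z.degree) (fun z => 1 - PowerSeries.X ^ z.degree)

/-- The inverse of the zeta function of the subset `B` of `Z` where the form `F` vanishes. -/
noncomputable def branchZetaInv : PowerSeries ℤ :=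
  eulerProduct (fun z : {z : Pt G // z.value F = 0} => z.1.degree)
    (fun z => 1 - PowerSeries.X ^ z.1.degree)

/-- The product over the closed points `z` of `Z` of the factors `1 - ψ(N F(z)) T ^ (deg z)`, where
`N F(z)` is the norm to `k` of the value of `F` at `z` and `ψ(0) = 0`. It is the inverse of the
`L`-function of the Kummer sheaf of `ψ` for `F`. -/
noncomputable def charProduct {A : Type} [CommRing A] (ψ : MulChar k A) : PowerSeries A :=
  eulerProduct (fun z : Pt G => z.degree)
    (fun z => 1 - PowerSeries.C (ψ (z.value F)) * PowerSeries.X ^ z.degree)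

/-- The zeta function of `B` divided by the zeta function of `Z` is `L₁ / L₂`. -/
structure IsZetaQuotient (L₁ L₂ : ℤ[X]) : Prop where
  constant : L₂.coeff 0 = 1
  quotient : branchZetaInv G F * (L₁ : PowerSeries ℤ) = zetaInv G * (L₂ : PowerSeries ℤ)

/-- `P` is the product of the products `charProduct` for the characters `χ ^ j`, `0 < j < N`. If the
order of `χ` is `N` then the zeta function of the covering `w ^ N = F` of `Z` is that of `Z` divided by
`P`. -/
def IsCoverPolynomial {A : Type} [CommRing A] (χ : MulChar k A) (N : ℕ) (P : ℤ[X]) : Prop :=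
  ∏ j ∈ Finset.Ico 1 N, charProduct G F (χ ^ j) =
    PowerSeries.map (algebraMap ℤ A) (P : PowerSeries ℤ)

/-- The multiplicity of the zero one of the reduction of `P` modulo `ℓ`. -/
noncomputable def multOne (ℓ : ℕ) (P : ℤ[X]) : ℕ :=
  (P.map (Int.castRingHom (ZMod ℓ))).rootMultiplicity 1

/-- The order of the zero of `P` at `T = 1 / q ^ r`, where `q` is the number of elements of `k`. -/
noncomputable def orderAt (k : Type) (r : ℕ) (P : ℤ[X]) : ℕ :=
  (P.map (Int.castRingHom ℚ)).rootMultiplicity ((Nat.card k : ℚ) ^ r)⁻¹

/-- `W(T)` is the product of the polynomials `P(b T)` for `b` in the multiset `S`: if the reciprocal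
zeros of `P` are the `α`, those of `W` are the products `α b`. -/
def IsTensor {A : Type} [CommRing A] (S : Multiset A) (P W : ℤ[X]) : Prop :=
  W.map (algebraMap ℤ A) = (S.map fun b => (P.map (algebraMap ℤ A)).comp (C b * X)).prod

theorem finite_points [Finite k] (N : ℕ) : {z : Pt G | z.degree ≤ N}.Finite := by
  have h1 : (⋃ j : Fin (M + 1), (fun z : SpacePt j k => (⟨j, z⟩ : Σ j : Fin (M + 1), SpacePt j k)) ''
      {z : SpacePt j k | Pool.Agent.TH639.SN.deg j k z ≤ N}).Finite :=
    Set.finite_iUnion fun j => (finite_le j k N).image _
  refine Set.Finite.of_finite_image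
    (f := fun z : Pt G => (⟨z.index, z.point⟩ : Σ j : Fin (M + 1), SpacePt j k))
    (h1.subset ?_) ?_
  · rintro _ ⟨z, hz, rfl⟩
    simp only [Set.mem_iUnion]
    exact ⟨z.index, z.point, hz, rfl⟩
  · intro z _ z' _ h
    cases z
    cases z'
    simp only [Sigma.mk.injEq] at h
    obtain ⟨h1, h2⟩ := h
    subst h1
    rw [heq_iff_eq] at h2
    subst h2
    rfl

theorem degree_pos (z : Pt G) : 0 < z.degree := deg_pos z.index k z.point

theorem value_C_mul (z : Pt G) (e : k) :
    z.value (MvPolynomial.C e * F) = e ^ z.degree * z.value F := by
  show normValue z.index k (chart z.index (MvPolynomial.C e * F)) z.point = _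
  rw [chart_C_mul, normValue_C_mul]
  rfl

end defs

/-- **The Tate conjecture for products with cyclic coverings.**

With the notation above let `M' = multOne ℓ W₁ - multOne ℓ W₂ + multOne ℓ W`, where `W₁`, `W₂`, `W` are
the tensor products of `L₁`, `L₂`, `P` with `S`. For all `v` outside a set `T` with
`ℓ ^ a |T| ≤ (q - 1) (1 + ℓ + ... + ℓ ^ (a - 1)) M'` the polynomials `W_v` and `W` have the same
order of vanishing at `1 / q ^ c`: the Frobenius on the tensor product of `H ^ i (Y)` with the part of
`H ^ (2 r) (X_v)` which does not come from `X` does not have the eigenvalue `q ^ c`, `2 c = 2 r + i`. So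
at most `M' (ℓ ^ a - 1) / (ℓ - 1)` of the `ℓ ^ a` classes of `v` are exceptional.

Consequence. Assume that the strong form of the Tate conjecture holds for `Y × X` in codimension `c`:
the rank of the group of cycles of codimension `c` modulo numerical equivalence is the order of the
pole of the zeta function at `1 / q ^ c`. Then it holds for `Y × X_v` in codimension `c` for all `v`
outside `T`: the order of the pole is the same for `Y × X_v` by the formula of Künneth, since the
cohomology of `X_v` in the degrees different from `2 r` is that of `Z`; it is at least the rank for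
`Y × X_v`; and the rank for `Y × X_v` is at least the rank for `Y × X`, since `Y × X_v` is a finite
covering of `Y × X`. (Only the degree `i = 2 c - 2 r` is needed, so there are exceptions only for
`r ≤ c ≤ r + dim Y`. For `Y` a point this is `MP_0fca13_ag.TowersOfCyclicCoverings`.)

For `n = 1` we have `X = Z`. For instance, if `Y` is any variety for which the strong Tate conjecture
is known in all codimensions, and `B` is a smooth hypersurface of degree divisible by `ℓ ^ a` in the
projective space of dimension `2 r`, then the strong Tate conjecture holds in codimension `c` for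
`Y × X_v`, `X_v : w ^ (ℓ ^ a) = v F`, except for at most `M' (ℓ ^ a - 1) / (ℓ - 1)` of the `ℓ ^ a`
classes of `v`, where `M'` is the multiplicity of the zero one modulo `ℓ` of `det (1 - T Frob)` on the
tensor product of `H ^ (2 c - 2 r) (Y)` and the sum of `H ^ (2 r - 1) (B)` and `H ^ (4 r) (Z)`. One can
use the products of coverings obtained in this way as a new `Y`. -/
theorem result (ℓ a n : ℕ) (hℓ : ℓ.Prime) (ha : a ≠ 0) (hn0 : 0 < n) (hn : n.Coprime ℓ)
    (k : Type) [Field k] [Finite k] (K : Type) [Field K] [NumberField K] [IsGalois ℚ K]
    (χ : MulChar k (𝓞 K)) (hχ : orderOf χ = n * ℓ ^ a)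
    (R : ℤ[X]) (S : Multiset (𝓞 K)) (hR : R.map (algebraMap ℤ (𝓞 K)) = (S.map fun b => X - C b).prod)
    (M s : ℕ) (G : Fin s → MvPolynomial (Fin (M + 1)) k) (F : MvPolynomial (Fin (M + 1)) k)
    (L₁ L₂ P : ℤ[X]) (hL : IsZetaQuotient G F L₁ L₂) (hP : IsCoverPolynomial G F (χ ^ ℓ ^ a) n P)
    (W₁ W₂ W : ℤ[X]) (hW₁ : IsTensor S L₁ W₁) (hW₂ : IsTensor S L₂ W₂) (hW : IsTensor S P W)
    (hpoly : ∀ j ∈ Finset.Ico 1 (n * ℓ ^ a), ∃ Q : (𝓞 K)[X],
      charProduct G F (χ ^ j) = (Q : PowerSeries (𝓞 K))) (c : ℕ) :
    ∃ T : Finset kˣ, ℓ ^ a * T.card ≤ (Nat.card k - 1) *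
        ((∑ i ∈ Finset.range a, ℓ ^ i) * (multOne ℓ W₁ - multOne ℓ W₂ + multOne ℓ W)) ∧
      ∀ v ∉ T, ∀ Pv Wv : ℤ[X],
        IsCoverPolynomial G (MvPolynomial.C ((v : k) ^ n) * F) χ (n * ℓ ^ a) Pv →
          IsTensor S Pv Wv → orderAt k c Wv = orderAt k c W := by
  have hP' : ∏ i ∈ Finset.Ico 1 n, Pool.Agent.H313.CC.cE (fun z : Pt G => z.degree)
      (fun z => z.value F) (χ ^ (i * ℓ ^ a)) =
      PowerSeries.map (algebraMap ℤ (𝓞 K)) (P : PowerSeries ℤ) := by
    rw [← hP]
    refine Finset.prod_congr rfl fun i _ => ?_
    rw [← pow_mul, mul_comm]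
    rfl
  obtain ⟨T, hT, hTv⟩ := Pool.Agent.H313.CC.tower_tensor hℓ ha hn0 hn K hχ
    (d := fun z : Pt G => z.degree) (nv := fun z => z.value F) (finite_points G) (degree_pos G)
    S (Pool.Agent.H313.CC.stable hR) hL.constant
    (congrArg (PowerSeries.map (Int.castRingHom (ZMod ℓ))) hL.quotient) hW₁ hW₂ hP' hW hpoly c
  exact ⟨T, hT, fun v hv Pv Wv hPv hWv =>
    hTv v hv (fun z => z.value (MvPolynomial.C ((v : k) ^ n) * F))
      (fun z => value_C_mul G F z _) Pv Wv hPv hWv⟩

end Pool.Agent.Results.MP_021685_ag.ProductsWithCoverings
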